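import Mathlib
import Pool.Agent.H520R2.NMDefs
import Pool.Agent.H537R3.SC.FIN3

/-!
# The Set Cover Conjecture for circuits with few non-monotone gates

Consider circuits of AND and OR gates of fan-in two and of arbitrary further gates, the `i`-th of
them with `w i` input wires, that get as input a family of subsets of `Fin n` with at most `δ * n`
elements each (one input bit for each of the `N` subsets with at most `δ * n` elements, telling
whether the set belongs to the family), and that have to decide whether at most `k` sets of the
family cover `Fin n`.

For all `ε > 0` and `A` there are a constant `k`, `0 < δ ≤ ε` and `γ > 0` such that for all large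
`n`

* there is a distribution on families (the uniform distribution on a finite multiset) such that
  every circuit with `∏ (w i + 1) ≤ 2 ^ (γ * n)` and

  `(number of AND and OR gates + ∑ w i) ≤ 2 ^ ((1 - ε) * n) * N ^ A`

  answers correctly on the random family with probability less than `1 / 2 + 2 ^ (-γ * n)`;
* every randomised circuit (a probability distribution `μ` on a finite set `Ω` of such circuits)
  answers correctly on some family with probability less than `1 / 2 + 2 ^ (-γ * n)`.

So, even for constant `k` and sets of at most `δ * n` elements, monotone circuits and circuits with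
at most `γ * n` NOT gates, also randomised ones, do not solve Set Cover with
`(2 - ε) ^ n * poly (N)` gates, for any `ε > 0`.

Proof.  Let `t` be a large constant and `n = b * t`. The circuit has to accept a random partition
`σ` of `Fin b × Fin t` into `t` transversals (the family consists of the `t` transversals) and to
reject, for random labels `a : Fin b × Fin t → ZMod p` with nonzero sum, the family of the
transversals on which the labels sum to zero. The gates are approximated by families of at most
`2 ^ (ξ * n)` colourings `T` of `Fin b × Fin t` (the approximator accepts `σ` if `T` is constant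
on the parts of `σ` for some `T` of the family, and `a` if `a` sums to zero on all colour classes,
except for a distinguished one, of some `T`). An intersection is harmless as long as the
distinguished class of the common refinement has at least half of the elements; otherwise only a
fraction `2 ^ (-(1 - o(1)) * n)` of the partitions is compatible with the refinement. Large
families are plucked: a subfamily `S'` all of whose members have the same image `ρ ∘ T` is replaced
by this image. The subfamily is chosen such that tuples of its members satisfy few linear
relations mod `p` (a set that is shattered by the colourings is found with Natarajan's lemma, and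
the Littlewood-Offord inequality modulo `p` is applied to it), so by the moment method only a
fraction `2 ^ (-3 * n)` of the labellings that sum to zero on the classes of `ρ ∘ T` does not sum
to zero on the classes of any `T` of `S'`. For the non-monotone gates, many such instances are
put into one family, and a chain of random restrictions is followed.
-/

namespace Pool.Agent.Results.MP_8fffab_lc.FewNonMonotoneGates

open Filter Finset Pool.Agent.H520R2.NM

/-- The subsets of `Fin n` with at most `δ * n` elements. -/
abbrev Small (δ : ℝ) (n : ℕ) : Type := {B : Finset (Fin n) // B.card ≤ ⌊δ * n⌋₊}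

/-- The family of the sets `B` with `x B = true` contains at most `k` sets with union `Fin n`. -/
def HasCover {δ : ℝ} {n : ℕ} (k : ℕ) (x : Small δ n → Bool) : Prop :=
  ∃ F : Finset (Small δ n), F.card ≤ k ∧ (∀ B ∈ F, x B = true) ∧ ∀ u : Fin n, ∃ B ∈ F, u ∈ B.1

open Classical in
theorem result (ε : ℝ) (hε : 0 < ε) (A : ℕ) :
    ∃ (k : ℕ) (δ γ : ℝ), 0 < δ ∧ δ ≤ ε ∧ 0 < γ ∧ ∀ᶠ n : ℕ in atTop,
      (∃ (Λ : Type) (_ : Fintype Λ) (_ : Nonempty Λ) (D : Λ → Small δ n → Bool),
        ∀ (m : ℕ) (C : Circuit (Small δ n) m) (out : Wire (Small δ n) m),
          (((C.fanins.map (· + 1)).prod : ℕ) : ℝ) ≤ 2 ^ (γ * n) →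
          ((C.size + C.fanins.sum : ℕ) : ℝ) ≤
            2 ^ ((1 - ε) * n) * (Fintype.card (Small δ n) : ℝ) ^ A →
          ((univ.filter (fun q =>
            (out.eval (D q) (C.vals (D q)) = true ↔ HasCover k (D q)))).card : ℝ) <
            (1 / 2 + 2 ^ (-(γ * n))) * Fintype.card Λ) ∧
      ∀ (Ω : Type) [Fintype Ω] (μ : Ω → ℝ), (∀ r, 0 ≤ μ r) → ∑ r, μ r = 1 →
        ∀ (m : Ω → ℕ) (C : ∀ r, Circuit (Small δ n) (m r)) (out : ∀ r, Wire (Small δ n) (m r)),
          (∀ r, ((((C r).fanins.map (· + 1)).prod : ℕ) : ℝ) ≤ 2 ^ (γ * n)) →
          (∀ r, (((C r).size + (C r).fanins.sum : ℕ) : ℝ) ≤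
            2 ^ ((1 - ε) * n) * (Fintype.card (Small δ n) : ℝ) ^ A) →
          ∃ x : Small δ n → Bool,
            ∑ r ∈ univ.filter (fun r =>
              ((out r).eval x ((C r).vals x) = true ↔ HasCover k x)), μ r <
              1 / 2 + 2 ^ (-(γ * n)) :=
  Pool.Agent.H537R3.SC.fi_main hε A

end Pool.Agent.Results.MP_8fffab_lc.FewNonMonotoneGates
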