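import Pool.Agent.H564R3.TS.Main
import Pool.Agent.H564R3.TS.Unw
import Pool.Agent.H564R3.TS.SetC
import Pool.Agent.H564R3.TS.NumS

/-!
Set cover by pure dynamic programs with little space.
-/

set_option autoImplicit false

namespace Pool.Agent.Results.MP_8fffab_lc.PureDPTimeSpace

open Finset
open Pool.Agent.H564R3.PW (Instr exec syms)
open Pool.Agent.H564R3.TS
open scoped NNReal

/-- the sets with `r` elements -/
abbrev RSet (n r : ℕ) : Type := {A : Finset (Fin n) // A.card = r}

/-- the members of `G` cover everything -/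
def Covers {n r : ℕ} (G : Finset (RSet n r)) : Prop := ∀ e : Fin n, ∃ A ∈ G, e ∈ A.1

/-- the value of the output register for the instance `F`: the input of a set is `1` if it is in
`F` and infinite otherwise -/
noncomputable def value {n r : ℕ} {ρ : Type} [DecidableEq ρ]
    (p : List (Instr (Tropical (WithTop ℝ≥0)) (RSet n r) ρ)) (o : ρ) (F : Finset (RSet n r)) :
    WithTop ℝ≥0 :=
  Tropical.untrop (exec (fun x => if x ∈ F then Tropical.trop ((1 : ℝ≥0) : WithTop ℝ≥0) else 0) p o)

/-- The (min,+) program `p` solves set cover for instances of sets with `r` elements: the output is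
the least number of members of `F` which cover everything (infinite if there are none). -/
def SolvesSetCover {n r : ℕ} {ρ : Type} [DecidableEq ρ]
    (p : List (Instr (Tropical (WithTop ℝ≥0)) (RSet n r) ρ)) (o : ρ) : Prop :=
  ∀ F : Finset (RSet n r),
    (∀ G ⊆ F, Covers G → value p o F ≤ ((G.card : ℝ≥0) : WithTop ℝ≥0)) ∧
    (value p o F ≠ ⊤ → ∃ G ⊆ F, Covers G ∧ value p o F = ((G.card : ℝ≥0) : WithTop ℝ≥0))

/-- **Time-space trade-off for set cover.** -/
theorem result (ε : ℝ) (hε : 0 < ε) (hε' : ε < 4) :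
    ∃ (r : ℕ) (δ : ℝ) (n₀ : ℕ), 1 ≤ r ∧ 0 < δ ∧ ∀ n ≥ n₀, r ∣ n →
      ∀ (ρ : Type) [Fintype ρ] [DecidableEq ρ]
        (p : List (Instr (Tropical (WithTop ℝ≥0)) (RSet n r) ρ)) (o : ρ), SolvesSetCover p o →
        (Fintype.card ρ : ℝ) ≤ 2 ^ (δ * n) → (4 - ε) ^ n ≤ p.length := by
  obtain ⟨r, δ, n₀, hr, hδ, hmain⟩ := num_set ε hε hε'
  refine ⟨r, δ, n₀, hr, hδ, fun n hn hrn ρ _ _ p o h hS => ?_⟩
  obtain ⟨m, hm⟩ := hrn
  obtain ⟨g1, g2⟩ := good_unw (fun x : RSet n r => x.1) r m hr (by rw [Fintype.card_fin, hm]) p o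
    (by
      intro F G hGF hG
      exact (h F).1 G hGF hG)
    (by
      intro F hne
      obtain ⟨G, hGF, hG, hv⟩ := (h F).2 hne
      exact ⟨G, hGF, hG, le_of_eq hv.symm⟩)
  obtain ⟨F, hFe, hFc⟩ := set_lower hr (univ : Finset (Fin n)) m (by
    rw [card_univ, Fintype.card_fin, hm])
  have hlen : 1 ≤ p.length := by
    rcases p with _ | ⟨a, l⟩
    · have h1 : (0 : ℕ) < F.card := by
        refine lt_of_lt_of_le ?_ hFc
        have := cr_eq r m hr
        rcases Nat.eq_zero_or_pos (cr r m) with h0 | h0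
        · rw [h0, zero_mul] at this
          exact absurd this.symm (Nat.factorial_ne_zero _)
        · exact h0
      obtain ⟨A, hA⟩ := Finset.card_pos.1 h1
      exact absurd (g1 A (hFe A hA)) (Set.notMem_empty _)
    · simp
  refine hmain n m (Fintype.card ρ) p.length hn hm (Fintype.card_pos_iff.2 ⟨o⟩) hlen hS ?_
  intro w H hw hH
  have h5 := main (fun x : RSet n r => x.1) r hr F hFe p o g2 (fun A hA => g1 A (hFe A hA)) (cr r)
    (fun P s G hP hG => set_count hr P s G hP hG) (4 ^ (r - 1)) (r * m + 1)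
    (Nat.one_le_pow _ _ (by norm_num)) (by omega) m (by rw [Fintype.card_fin, hm])
    (fun x s hx hs => cr_ineq r m x s hr hx hs) w H hw hH
  have hpos : 0 < cr r m := by
    have := cr_eq r m hr
    rcases Nat.eq_zero_or_pos (cr r m) with h0 | h0
    · rw [h0, zero_mul] at this
      exact absurd this.symm (Nat.factorial_ne_zero _)
    · exact h0
  have h6 : cr r m * (4 ^ (r - 1)) ^ m ≤ cr r m * (2 ^ H * (4 ^ (r - 1)) ^ (3 * w) *
      ((H + 1) * (r * m + 1) * Fintype.card ρ) ^ (m / w)) := by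
    calc cr r m * (4 ^ (r - 1)) ^ m ≤ F.card * (4 ^ (r - 1)) ^ m := Nat.mul_le_mul_right _ hFc
      _ ≤ _ := h5
      _ = _ := by ring
  exact Nat.le_of_mul_le_mul_left h6 hpos

end Pool.Agent.Results.MP_8fffab_lc.PureDPTimeSpace
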