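import Pool.Agent.H596R2.D3R.SCFinal

/-!
The Set Cover Conjecture for randomised depth three circuits.
-/

namespace Pool.Agent.Results.MP_8fffab_lc.RandomizedDepthThree

open Pool.Agent.H596R2.D3 Pool.Agent.H596R2.D3R

theorem result :
    ∀ ε > (0 : ℝ), ∀ η > (0 : ℝ), ∀ c : ℕ, ∃ k N : ℕ, ∀ n ≥ N, ∃ M : ℕ,
      1 ≤ M ∧ (M : ℝ) ≤ (2 : ℝ) ^ (ε * n) ∧
      ∀ (L : Type) [Fintype L] (w : L → ℝ) (C : L → Circuit (SCBit n M) 3),
        (∀ l, 0 ≤ w l) → ∑ l, w l = 1 →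
        (∀ z, ValidSC z → 1 / 2 + η ≤ success w C z (HasCover k z)) →
        (2 : ℝ) ^ ((1 - ε) * n) * ((n : ℝ) * M) ^ c < expSize w C :=
  fun ε hε η hη c => sc_main ε η hε hη c

end Pool.Agent.Results.MP_8fffab_lc.RandomizedDepthThree
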