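import Mathlib
import Pool.Agent.H561R2.SC.Inst

set_option autoImplicit false

/-!
The Set Cover Conjecture for regular resolution.

For every `ε > 0` and every large enough `k` there are, for all large `n`, families `F` of subsets of `[n]`
with at most `k` elements and numbers `t` such that no `t` members of `F` cover `[n]`, but every regular
resolution refutation of any of the usual encodings of `t members of F cover [n]` has at least
`2^((1-ε)n)` lines.
-/

namespace Pool.Agent.Results.MP_8fffab_lc.RegularResolution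

open Pool.Agent.H561R2.SC

theorem result {ε : ℝ} (hε : 0 < ε) : ∃ k0 : ℕ, ∀ k ≥ k0, ∃ N : ℕ, ∀ n ≥ N,
    ∃ (F : Finset (Finset (Fin n))) (t : ℕ), (∀ A ∈ F, A.card ≤ k) ∧
      (∀ S ⊆ F, S.card ≤ t → S.biUnion id ≠ Finset.univ) ∧
      ∀ (X : Type) [DecidableEq X] (ν : Fin t → Finset (Fin n) → X),
        (∀ i j, ∀ A ∈ F, ∀ B ∈ F, ν i A = ν j B → A = B) →
        ∀ Φ : Set (Finset (X × Bool)), Admissible F ν Φ →
          ∀ (s : ℕ) (D : Deriv X s Φ), D.Regular → (∃ i, D.line i = ∅) →
            (2:ℝ)^((1-ε)*n) ≤ s :=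
  main hε

end Pool.Agent.Results.MP_8fffab_lc.RegularResolution
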